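import Mathlib

open scoped ENNReal

namespace Pool.Agent.Results.MP_e3a9f0_pr.NoRate

/-- The upper probability function `F(x) = P(X ⊇ x)`. -/
noncomputable def upper (μ : PMF (Finset ℕ+)) (x : Finset ℕ+) : ℝ≥0∞ :=
  μ.toOuterMeasure {y | x ⊆ y}

open Classical in
noncomputable def gen (μ : PMF (Finset ℕ+)) (x : Finset ℕ+) (n : ℕ) : ℝ≥0∞ :=
  ∑' y, if x ⊆ y then μ y * (n : ℝ≥0∞) ^ (y \ x).card else 0

theorem binom (x y : Finset ℕ+) (h : x ⊆ y) (n : ℝ≥0∞) :
    (n + 1) ^ (y \ x).card = ∑' w, if x ⊆ w ∧ w ⊆ y then n ^ (w \ x).card else 0 := by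
  classical
  rw [tsum_eq_sum (s := (y \ x).powerset.image (· ∪ x))]
  · rw [Finset.sum_image]
    · rw [← Finset.sum_pow_mul_eq_add_pow]
      refine Finset.sum_congr rfl fun t ht => ?_
      have ht' := Finset.mem_powerset.1 ht
      rw [if_pos ⟨Finset.subset_union_right,
        Finset.union_subset (ht'.trans Finset.sdiff_subset) h⟩, one_pow, mul_one,
        Finset.union_sdiff_cancel_right (Finset.disjoint_of_subset_left ht' Finset.sdiff_disjoint)]
    · intro a ha b hb e
      have ha' := Finset.disjoint_of_subset_left (Finset.mem_powerset.1 ha) Finset.sdiff_disjoint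
      have hb' := Finset.disjoint_of_subset_left (Finset.mem_powerset.1 hb) Finset.sdiff_disjoint
      rw [← Finset.union_sdiff_cancel_right ha', ← Finset.union_sdiff_cancel_right hb']
      exact congrArg (· \ x) e
  · intro w hw
    rw [if_neg]
    rintro ⟨h1, h2⟩
    exact hw (Finset.mem_image.2 ⟨w \ x, Finset.mem_powerset.2 (Finset.sdiff_subset_sdiff h2 le_rfl),
      Finset.sdiff_union_of_subset h1⟩)

theorem step (μ : PMF (Finset ℕ+)) (α : ℝ≥0∞) (h : ∀ x, μ x = α * upper μ x) (x : Finset ℕ+)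
    (n : ℕ) : α * gen μ x (n + 1) = gen μ x n := by
  classical
  have e1 : gen μ x (n + 1) =
      ∑' y, ∑' w, if x ⊆ w ∧ w ⊆ y then μ y * (n : ℝ≥0∞) ^ (w \ x).card else 0 := by
    refine tsum_congr fun y => ?_
    split_ifs with hy
    · push_cast
      rw [binom x y hy, ← ENNReal.tsum_mul_left]
      exact tsum_congr fun w => by split_ifs <;> simp
    · symm
      simp only [ENNReal.tsum_eq_zero]
      exact fun w => if_neg fun hw => hy (hw.1.trans hw.2)
  rw [e1, ENNReal.tsum_comm, ← ENNReal.tsum_mul_left]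
  refine tsum_congr fun w => ?_
  split_ifs with hw
  · rw [h w, upper, PMF.toOuterMeasure_apply, mul_assoc, ← ENNReal.tsum_mul_right]
    congr 1
    refine tsum_congr fun y => ?_
    by_cases hy : w ⊆ y <;> simp [hw, hy, Set.indicator]
  · simp [hw]

theorem iter (μ : PMF (Finset ℕ+)) (α : ℝ≥0∞) (h : ∀ x, μ x = α * upper μ x) (x : Finset ℕ+)
    (n : ℕ) : α ^ n * gen μ x n = μ x := by
  classical
  induction n with
  | zero =>
    rw [pow_zero, one_mul, gen, tsum_eq_single x]
    · simp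
    · intro y hy
      split_ifs with h
      · have : (y \ x).card ≠ 0 := by
          rw [Ne, Finset.card_eq_zero, Finset.sdiff_eq_empty_iff_subset]
          exact fun h' => hy (Finset.Subset.antisymm h' h)
        simp [this]
      · rfl
  | succ k ih => rw [pow_succ, mul_assoc, step μ α h, ih]

theorem result : ¬ ∃ (μ : PMF (Finset ℕ+)) (α : ℝ),
    (∀ x, 0 < μ x) ∧ ∀ x, (μ x).toReal = α * (upper μ x).toReal := by
  classical
  rintro ⟨μ, α, hpos, h⟩
  have hu : ∀ x, upper μ x ≠ ⊤ := fun x => by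
    rw [upper, PMF.toOuterMeasure_apply]
    exact (μ.tsum_coe_indicator_ne_top _)
  have h' : ∀ x, μ x = ENNReal.ofReal α * upper μ x := fun x => by
    rw [← ENNReal.ofReal_toReal (μ.apply_ne_top x), h x,
      ENNReal.ofReal_mul' ENNReal.toReal_nonneg, ENNReal.ofReal_toReal (hu x)]
  have key : ∀ n : ℕ, (n : ℝ≥0∞) * μ {1} ≤ μ ∅ := by
    intro n
    rw [← iter μ _ h' {1} n, ← iter μ _ h' ∅ n, mul_left_comm]
    refine mul_le_mul_right ?_ _
    rw [gen, gen, ← ENNReal.tsum_mul_left]
    refine ENNReal.tsum_le_tsum fun y => ?_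
    split_ifs with h1 h2 h2
    · have : (y \ ∅).card = (y \ {1}).card + 1 := by
        rw [Finset.sdiff_empty, Finset.card_sdiff_add_card_eq_card (s := {1}) h1 |>.symm]; simp
      rw [this, pow_succ]; apply le_of_eq; ring
    · exact absurd (Finset.empty_subset _) h2
    · simp
    · simp
  obtain ⟨n, hn⟩ := ENNReal.exists_nat_mul_gt (hpos {1}).ne' (μ.apply_ne_top ∅)
  exact absurd (key n) (not_le.2 hn)

end Pool.Agent.Results.MP_e3a9f0_pr.NoRate
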